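import Pool.Agent.DNS.Fin

set_option autoImplicit false

/-!
# MP_0933f2_co, Q1: dense graphs and dense ends of graphs

If every vertex of a graph with `n` vertices has at most `n / 20` non-neighbours, then the
deletion of every edge lowers the mean size of a broken-cycle-free spanning subgraph.

More generally, let `C` be a set of vertices such that the vertices outside `C` with a neighbour in
`C` are pairwise adjacent, and let `B` consist of `C` and these vertices. If every vertex of `B` has
at most `|B| / 20` non-neighbours in `B`, then the deletion of every edge with an end in `C` lowers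
the mean. Nothing is assumed about the rest of the graph.
-/

namespace Pool.Agent.Results.MP_0933f2_co.DenseEnds

open Polynomial Pool.Agent.BCF Pool.Agent.SCP Pool.Agent.DNS

section definitions

variable {V : Type}

/-- The vertices outside `C` with a neighbour in `C` are pairwise adjacent. -/
def CliqueBoundary (G : SimpleGraph V) (C : Finset V) : Prop :=
  ∀ a b, a ∉ C → b ∉ C → (∃ x ∈ C, G.Adj x a) → (∃ x ∈ C, G.Adj x b) → a ≠ b → G.Adj a b

/-- The vertices of `C` and their neighbours. -/
noncomputable def closedNbhd [Fintype V] (G : SimpleGraph V) (C : Finset V) : Finset V := by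
  classical
  exact Finset.univ.filter fun v => v ∈ C ∨ ∃ x ∈ C, G.Adj x v

/-- Every vertex of `B` has at most `|B| / 20` non-neighbours in `B`, other than itself. -/
def Dense (G : SimpleGraph V) (B : Finset V) : Prop := by
  classical
  exact ∀ y ∈ B, 20 * (B.filter fun z => z ≠ y ∧ ¬ G.Adj y z).card ≤ B.card

end definitions

theorem mem_closedNbhd {V : Type} [Fintype V] {G : SimpleGraph V} {C : Finset V} {v : V} :
    v ∈ closedNbhd G C ↔ v ∈ C ∨ ∃ x ∈ C, G.Adj x v := by
  classical
  unfold closedNbhd
  rw [Finset.mem_filter]
  exact ⟨fun h => h.2, fun h => ⟨Finset.mem_univ _, h⟩⟩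

/-- The configuration given by a dense end. -/
theorem cd_of {V : Type} [Fintype V] [DecidableEq V] {G : SimpleGraph V} [DecidableRel G.Adj]
    {C : Finset V} (h1 : CliqueBoundary G C) (h2 : Dense G (closedNbhd G C)) :
    Cd G (closedNbhd G C) C ((closedNbhd G C).card / 20) where
  CB := fun x hx => mem_closedNbhd.mpr (Or.inl hx)
  nbr := fun x hx y hxy => mem_closedNbhd.mpr (Or.inr ⟨x, hx, hxy⟩)
  clq := by
    intro a ha b hb haC hbC hab
    exact h1 a b haC hbC ((mem_closedNbhd.mp ha).resolve_left haC)
      ((mem_closedNbhd.mp hb).resolve_left hbC) hab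
  non := by
    intro y hy
    have h3 := h2 y hy
    have h4 : (nn G (closedNbhd G C) y).card * 20 ≤ (closedNbhd G C).card := by
      unfold nn
      rw [mul_comm]
      convert h3 using 3
      ext z
      simp only [Finset.mem_filter]
    exact (Nat.le_div_iff_mul_le (by norm_num)).mpr h4

/-- If the vertices outside `C` with a neighbour in `C` are pairwise adjacent and every vertex of
`B`, the set `C` with its neighbours, has at most `|B| / 20` non-neighbours in `B`, then the
deletion of every edge with an end in `C` lowers the mean size of a broken-cycle-free spanning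
subgraph. In particular this holds for every edge if every vertex has at most `|V| / 20`
non-neighbours. -/
theorem result (V : Type) [Fintype V] [DecidableEq V] (G : SimpleGraph V) [DecidableRel G.Adj]
    (ε : Finset (Sym2 V) → ℝ)
    (hε : ∀ E : Finset (Sym2 V), ε E =
        (∑ A ∈ E.powerset,
            ((Fintype.card V : ℝ) -
              (Nat.card (SimpleGraph.fromEdgeSet (A : Set (Sym2 V))).ConnectedComponent : ℝ)) *
            (-1 : ℝ) ^ (A.card + Fintype.card V +
              Nat.card (SimpleGraph.fromEdgeSet (A : Set (Sym2 V))).ConnectedComponent)) /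
        (∑ A ∈ E.powerset,
            (-1 : ℝ) ^ (A.card + Fintype.card V +
              Nat.card (SimpleGraph.fromEdgeSet (A : Set (Sym2 V))).ConnectedComponent))) :
    (∀ C : Finset V, CliqueBoundary G C → Dense G (closedNbhd G C) →
      ∀ w ∈ C, ∀ u, G.Adj w u → ε (G.edgeFinset.erase s(w, u)) < ε G.edgeFinset) ∧
    (Dense G Finset.univ → ∀ e ∈ G.edgeFinset,
      ε (G.edgeFinset.erase e) < ε G.edgeFinset) := by
  have key : ∀ C : Finset V, CliqueBoundary G C → Dense G (closedNbhd G C) →
      ∀ w ∈ C, ∀ u, G.Adj w u → ε (G.edgeFinset.erase s(w, u)) < ε G.edgeFinset := by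
    intro C h1 h2 w hw u hwu
    have cd := cd_of h1 h2
    refine lower hε hwu ?_
    rcases Nat.eq_zero_or_pos ((closedNbhd G C).card / 20) with h0 | h0
    · -- `B` is a clique
      refine good_simplicial hwu ?_
      intro a b ha hb hab
      have haB := cd.nbr w hw a ha
      have hbB := cd.nbr w hw b hb
      have h3 := cd.non a haB
      rw [h0, Nat.le_zero, Finset.card_eq_zero] at h3
      by_contra hcon
      have h4 : b ∈ nn G (closedNbhd G C) a := mem_nn.mpr ⟨hbB, hab.symm, hcon⟩
      rw [h3] at h4
      exact Finset.notMem_empty _ h4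
    · exact final (fds G) cd h0 (by omega) hw hwu
  refine ⟨key, ?_⟩
  intro h e he
  have hB : closedNbhd G (Finset.univ : Finset V) = Finset.univ := by
    ext v
    rw [mem_closedNbhd]
    exact ⟨fun _ => Finset.mem_univ _, fun _ => Or.inl (Finset.mem_univ _)⟩
  induction e using Sym2.ind with
  | _ w u =>
    rw [SimpleGraph.mem_edgeFinset] at he
    refine key Finset.univ ?_ ?_ w (Finset.mem_univ _) u he
    · intro a b ha
      exact absurd (Finset.mem_univ a) ha
    · rw [hB]
      exact h

end Pool.Agent.Results.MP_0933f2_co.DenseEnds
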