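import Pool.Agent.LCR.Dom
import Pool.Agent.LCR.Cob
import Pool.Agent.LCR.Arc
import Pool.Agent.LCR.Atf

set_option autoImplicit false

/-!
# MP_0933f2_co, Q1: a local criterion for a good edge in an arbitrary graph

Let `S` and `K` be disjoint sets of vertices. A crossing edge joins a vertex of `S` to a vertex
outside `S` and `K`. Suppose that either

* (neck) `K` is a clique, the ends in `S` of the crossing edges are pairwise adjacent, their other
  ends are pairwise adjacent, and all these ends are adjacent to all of `K`; or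
* (star) `K` is empty, `S` has one vertex `w`, some neighbour of `w` is adjacent to all other
  neighbours of `w`, and no three neighbours of `w` are pairwise nonadjacent.

Then, if there is a crossing edge, the deletion of some crossing edge lowers the mean size of a
broken-cycle-free spanning subgraph. Nothing is assumed about the rest of the graph.

This proves the conjecture for connected graphs whose complement is bipartite, for cones over graphs
with a vertex without three pairwise nonadjacent neighbours, for circular-arc graphs with a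
dominated vertex, and for connected claw-free graphs of diameter at least `3` without
asteroidal triples.
-/

namespace Pool.Agent.Results.MP_0933f2_co.LocalCriteria

open Polynomial Pool.Agent.BCF Pool.Agent.SCP Pool.Agent.LCR

section definitions

variable {V : Type}

/-- `b a` is an edge from the vertex `b` of `S` to the vertex `a` outside `S` and `K`. -/
def Cross (G : SimpleGraph V) (S K : Finset V) (b a : V) : Prop :=
  b ∈ S ∧ a ∉ S ∧ a ∉ K ∧ G.Adj b a

/-- `K` is a clique disjoint from `S`; the ends in `S` of the crossing edges are pairwise adjacent,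
their other ends are pairwise adjacent, and all these ends are adjacent to all of `K`. -/
structure Neck (G : SimpleGraph V) (S K : Finset V) : Prop where
  disj : ∀ x ∈ K, x ∉ S
  clique : ∀ x ∈ K, ∀ y ∈ K, x ≠ y → G.Adj x y
  ends : ∀ b a b' a', Cross G S K b a → Cross G S K b' a' →
    (b = b' ∨ G.Adj b b') ∧ (a = a' ∨ G.Adj a a')
  full : ∀ b a, Cross G S K b a → ∀ x ∈ K, G.Adj x b ∧ G.Adj x a

/-- No three neighbours of `w` are pairwise nonadjacent. -/
def Two (G : SimpleGraph V) (w : V) : Prop :=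
  ∀ x y z, G.Adj w x → G.Adj w y → G.Adj w z → x ≠ y → x ≠ z → y ≠ z →
    G.Adj x y ∨ G.Adj x z ∨ G.Adj y z

/-- `w` is adjacent to `a`, which is adjacent to all other neighbours of `w`. -/
def Dominated (G : SimpleGraph V) (w a : V) : Prop :=
  G.Adj w a ∧ ∀ u, G.Adj w u → u ≠ a → G.Adj a u

/-- `K` is empty and `S` consists of a dominated vertex without three pairwise nonadjacent
neighbours. -/
def Star (G : SimpleGraph V) (S K : Finset V) : Prop :=
  K = ∅ ∧ ∃ w a, S = {w} ∧ Dominated G w a ∧ Two G w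

/-- A connected graph with at least two vertices whose complement is bipartite. -/
def CoBipartite [Fintype V] (G : SimpleGraph V) : Prop :=
  G.Connected ∧ 2 ≤ Fintype.card V ∧
    ∃ A : Set V, (∀ x ∈ A, ∀ y ∈ A, x ≠ y → G.Adj x y) ∧ ∀ x ∉ A, ∀ y ∉ A, x ≠ y → G.Adj x y

/-- Some vertex is adjacent to all others, and another one has no three pairwise nonadjacent
neighbours. -/
def Cone (G : SimpleGraph V) : Prop :=
  ∃ u w, u ≠ w ∧ (∀ v, v ≠ u → G.Adj u v) ∧ Two G w

/-- The vertices are represented by arcs `{s, s + 1, ..., s + l}` of a circle `ZMod N` and are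
adjacent exactly when the arcs meet, and some vertex is dominated. -/
def DominatedArcs (G : SimpleGraph V) : Prop :=
  (∃ (N : ℕ) (_ : NeZero N) (s : V → ZMod N) (l : V → ℕ),
    ∀ u v, G.Adj u v ↔ u ≠ v ∧ ∃ x, x ∈ arc (s u) (l u) ∧ x ∈ arc (s v) (l v)) ∧
  ∃ w a, Dominated G w a

/-- A connected claw-free graph without asteroidal triples, of diameter at least `3`. -/
def LongClawAT (G : SimpleGraph V) : Prop :=
  G.Connected ∧ (∀ z, Two G z) ∧
    (∀ a b c, Avoid G c a b → Avoid G a b c → ¬ Avoid G b a c) ∧ ∃ x y, 3 ≤ G.dist x y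

end definitions

/-- The pairs of ends of the crossing edges. -/
noncomputable def crossPairs {V : Type} [Fintype V] (G : SimpleGraph V) (S K : Finset V) :
    Finset (V × V) := by
  classical
  exact Finset.univ.filter fun p => Cross G S K p.1 p.2

theorem neck_good {V : Type} [Fintype V] [DecidableEq V] {G : SimpleGraph V}
    [DecidableRel G.Adj] {ε : Finset (Sym2 V) → ℝ}
    (hε : ∀ E : Finset (Sym2 V), ε E =
        (∑ A ∈ E.powerset,
            ((Fintype.card V : ℝ) -
              (Nat.card (SimpleGraph.fromEdgeSet (A : Set (Sym2 V))).ConnectedComponent : ℝ)) *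
            (-1 : ℝ) ^ (A.card + Fintype.card V +
              Nat.card (SimpleGraph.fromEdgeSet (A : Set (Sym2 V))).ConnectedComponent)) /
        (∑ A ∈ E.powerset,
            (-1 : ℝ) ^ (A.card + Fintype.card V +
              Nat.card (SimpleGraph.fromEdgeSet (A : Set (Sym2 V))).ConnectedComponent)))
    {S K : Finset V} (hN : Neck G S K) (hne : ∃ b a, Cross G S K b a) :
    ∃ b a, Cross G S K b a ∧ ε (G.edgeFinset.erase s(b, a)) < ε G.edgeFinset := by
  classical
  set P := crossPairs G S K with hPd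
  set E := G.edgeFinset \ eds P with hEd
  set A : Finset V := Finset.univ.filter fun a => ∃ b, Cross G S K b a with hAd
  set B : Finset V := Finset.univ.filter fun b => ∃ a, Cross G S K b a with hBd
  have hmem : ∀ b a, (b, a) ∈ P ↔ Cross G S K b a := by
    intro b a
    rw [hPd]
    unfold crossPairs
    rw [Finset.mem_filter]
    exact ⟨fun h => h.2, fun h => ⟨Finset.mem_univ _, h⟩⟩
  have hA : ∀ a, a ∈ A ↔ ∃ b, Cross G S K b a := by
    intro a
    rw [hAd, Finset.mem_filter]
    exact ⟨fun h => h.2, fun h => ⟨Finset.mem_univ _, h⟩⟩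
  have hB : ∀ b, b ∈ B ↔ ∃ a, Cross G S K b a := by
    intro b
    rw [hBd, Finset.mem_filter]
    exact ⟨fun h => h.2, fun h => ⟨Finset.mem_univ _, h⟩⟩
  have heds : ∀ x y, s(x, y) ∈ eds P ↔ (Cross G S K x y ∨ Cross G S K y x) := by
    intro x y
    rw [← hmem, ← hmem]
    unfold eds
    rw [Finset.mem_image]
    constructor
    · rintro ⟨p, hp, h⟩
      rcases Sym2.eq_iff.mp h with h1 | h1
      · left; rw [← h1.1, ← h1.2]; exact hp
      · right; rw [← h1.1, ← h1.2]; exact hp
    · rintro (h | h)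
      · exact ⟨_, h, rfl⟩
      · exact ⟨_, h, Sym2.eq_swap⟩
  have hE : ∀ x y, s(x, y) ∈ E ↔ G.Adj x y ∧ ¬ Cross G S K x y ∧ ¬ Cross G S K y x := by
    intro x y
    rw [hEd, Finset.mem_sdiff, SimpleGraph.mem_edgeFinset, SimpleGraph.mem_edgeSet, heds]
    constructor
    · rintro ⟨h1, h2⟩
      push Not at h2
      exact ⟨h1, h2.1, h2.2⟩
    · rintro ⟨h1, h2, h3⟩
      refine ⟨h1, ?_⟩
      rintro (h | h)
      · exact h2 h
      · exact h3 h
  have two : Pool.Agent.LCR.Two E A B S K := by
    refine ⟨?_, ?_, hN.disj, ?_, ?_, ?_, ?_, ?_, ?_⟩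
    · intro a ha
      obtain ⟨b, hb⟩ := (hA a).mp ha
      exact hb.2.1
    · intro b hb
      obtain ⟨a, ha⟩ := (hB b).mp hb
      exact ha.1
    · intro a ha a' ha' hne
      obtain ⟨b, hb⟩ := (hA a).mp ha
      obtain ⟨b', hb'⟩ := (hA a').mp ha'
      rw [hE]
      refine ⟨((hN.ends _ _ _ _ hb hb').2).resolve_left hne, fun h => hb.2.1 h.1,
        fun h => hb'.2.1 h.1⟩
    · intro b hb b' hb' hne
      obtain ⟨a, ha⟩ := (hB b).mp hb
      obtain ⟨a', ha'⟩ := (hB b').mp hb'
      rw [hE]
      exact ⟨((hN.ends _ _ _ _ ha ha').1).resolve_left hne, fun h => h.2.1 ha'.1,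
        fun h => h.2.1 ha.1⟩
    · intro x hx y hy hne
      rw [hE]
      exact ⟨hN.clique x hx y hy hne, fun h => h.2.2.1 hy, fun h => h.2.2.1 hx⟩
    · intro x hx a ha
      obtain ⟨b, hb⟩ := (hA a).mp ha
      rw [hE]
      exact ⟨(hN.full _ _ hb x hx).2, fun h => hN.disj x hx h.1, fun h => hb.2.1 h.1⟩
    · intro x hx b hb
      obtain ⟨a, ha⟩ := (hB b).mp hb
      rw [hE]
      exact ⟨(hN.full _ _ ha x hx).1, fun h => hN.disj x hx h.1, fun h => h.2.2.1 hx⟩
    · intro x y hxy hx hy
      rw [hE] at hxy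
      by_contra hK
      exact hxy.2.1 ⟨hx, hy, hK, hxy.1⟩
  have hloop : ∀ s ∈ G.edgeFinset, ¬ s.IsDiag := by
    intro s hs
    rw [SimpleGraph.mem_edgeFinset] at hs
    exact G.not_isDiag_of_mem_edgeSet hs
  have hEl : ∀ s ∈ E, ¬ s.IsDiag := fun s hs => hloop s (Finset.mem_sdiff.mp hs).1
  have hP : ∀ p ∈ P, p.1 ∈ B ∧ p.2 ∈ A := by
    rintro ⟨b, a⟩ hp
    rw [hmem] at hp
    exact ⟨(hB b).mpr ⟨a, hp⟩, (hA a).mpr ⟨b, hp⟩⟩
  have hPne : P.Nonempty := by
    obtain ⟨b, a, hba⟩ := hne
    exact ⟨(b, a), (hmem b a).mpr hba⟩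
  have hU : E ∪ eds P = G.edgeFinset := by
    rw [hEd]
    apply Finset.sdiff_union_of_subset
    intro s hs
    induction s using Sym2.ind with
    | _ x y =>
      rw [SimpleGraph.mem_edgeFinset, SimpleGraph.mem_edgeSet]
      rcases (heds x y).mp hs with h | h
      · exact h.2.2.2
      · exact h.2.2.2.symm
  obtain ⟨⟨b, a⟩, hp, hlt⟩ := good_cob two hEl hP hPne
  have hp' := (hmem b a).mp hp
  have hU' : E ∪ eds (P.erase (b, a)) = G.edgeFinset.erase s(b, a) := by
    ext s
    induction s using Sym2.ind with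
    | _ x y =>
      rw [Finset.mem_erase, ← hU, Finset.mem_union, Finset.mem_union]
      have h1 : s(x, y) ∈ eds (P.erase (b, a)) ↔ s(x, y) ∈ eds P ∧ s(x, y) ≠ s(b, a) := by
        unfold eds
        rw [Finset.mem_image, Finset.mem_image]
        constructor
        · rintro ⟨q, hq, h⟩
          rw [Finset.mem_erase] at hq
          refine ⟨⟨q, hq.2, h⟩, ?_⟩
          intro h2
          rw [← h] at h2
          rcases Sym2.eq_iff.mp h2 with h3 | h3
          · exact hq.1 (Prod.ext h3.1 h3.2)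
          · have h4 := (hmem q.1 q.2).mp hq.2
            rw [h3.1] at h4
            exact hp'.2.1 h4.1
        · rintro ⟨⟨q, hq, h⟩, h2⟩
          refine ⟨q, Finset.mem_erase.mpr ⟨?_, hq⟩, h⟩
          rintro rfl
          exact h2 h.symm
      rw [h1]
      constructor
      · rintro (h | h)
        · refine ⟨?_, Or.inl h⟩
          intro h2
          rw [h2, hE] at h
          exact h.2.1 hp'
        · exact ⟨h.2, Or.inr h.1⟩
      · rintro ⟨h2, h | h⟩
        · exact Or.inl h
        · exact Or.inr ⟨h, h2⟩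
  refine ⟨b, a, hp', ?_⟩
  rw [hU', hU] at hlt
  rw [eps_eq hε hloop, eps_eq hε fun s hs => hloop s (Finset.mem_of_mem_erase hs)]
  linarith

theorem neck_of_long {V : Type} [Fintype V] {G : SimpleGraph V} (h : LongClawAT G) :
    ∃ S : Finset V, Neck G S ∅ ∧ ∃ b a, Cross G S ∅ b a := by
  classical
  obtain ⟨hc, hclaw, hat, x₀, y₀, hxy₀⟩ := h
  obtain ⟨p, _, hp⟩ := Finset.exists_max_image (Finset.univ : Finset (V × V))
    (fun q => G.dist q.1 q.2) ⟨(x₀, y₀), Finset.mem_univ _⟩
  obtain ⟨x, y⟩ := p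
  have hmax : ∀ u v, G.dist u v ≤ G.dist x y := fun u v => hp (u, v) (Finset.mem_univ _)
  have hD : 3 ≤ G.dist x y := hxy₀.trans (hmax x₀ y₀)
  have hcl : ∀ i, 2 ≤ i → ∀ a b, G.dist x a = i → G.dist x b = i → a ≠ b → G.Adj a b :=
    fun i hi a b ha hb hab => level_clique hc
      (fun z x y w h1 h2 h3 h4 h5 h6 => hclaw z x y w h1 h2 h3 h4 h5 h6) hat hmax (by omega)
      hi ha hb hab
  have hadj : ∀ u v, G.Adj u v → G.dist x v ≤ G.dist x u + 1 := by
    intro u v huv
    have h2 : G.dist x v ≤ G.dist x u + G.dist u v := hc.dist_triangle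
    rw [SimpleGraph.dist_eq_one_iff_adj.mpr huv] at h2
    exact h2
  set S : Finset V := Finset.univ.filter fun v => G.dist x y ≤ G.dist x v with hS
  have hmS : ∀ v, v ∈ S ↔ G.dist x v = G.dist x y := by
    intro v
    rw [hS, Finset.mem_filter]
    have := hmax x v
    exact ⟨fun h => by have := h.2; omega, fun h => ⟨Finset.mem_univ _, by omega⟩⟩
  have hout : ∀ b a, Cross G S ∅ b a → G.dist x b = G.dist x y ∧
      G.dist x a + 1 = G.dist x y := by
    rintro b a ⟨h1, h2, _, h4⟩
    rw [hmS] at h1 h2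
    have h5 := hadj a b h4.symm
    have h6 := hmax x a
    exact ⟨h1, by omega⟩
  refine ⟨S, ⟨fun x hx => absurd hx (Finset.notMem_empty x), fun x hx => absurd hx (Finset.notMem_empty x), ?_, fun _ _ _ x hx => absurd hx (Finset.notMem_empty x)⟩, ?_⟩
  · intro b a b' a' h1 h2
    have h3 := hout _ _ h1
    have h4 := hout _ _ h2
    constructor
    · by_cases h : b = b'
      · exact Or.inl h
      · exact Or.inr (hcl _ (by omega) b b' h3.1 h4.1 h)
    · by_cases h : a = a'
      · exact Or.inl h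
      · exact Or.inr (hcl (G.dist x a) (by omega) a a' rfl (by omega) h)
  · obtain ⟨m, hm⟩ : ∃ m, G.dist x y = m + 1 := ⟨G.dist x y - 1, by omega⟩
    obtain ⟨u, hyu, hu⟩ := closer hc hm
    refine ⟨y, u, (hmS y).mpr rfl, ?_, Finset.notMem_empty _, hyu⟩
    rw [hmS]
    omega

theorem neck_of_cob {V : Type} [Fintype V] {G : SimpleGraph V} (h : CoBipartite G) :
    ∃ S : Finset V, Neck G S ∅ ∧ ∃ b a, Cross G S ∅ b a := by
  classical
  obtain ⟨hconn, hcard, A, h1, h2⟩ := h
  have hnt : Nontrivial V := Fintype.one_lt_card_iff_nontrivial.mp (by omega)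
  have main : ∀ B : Finset V, (∀ b ∈ B, ∀ b' ∈ B, b ≠ b' → G.Adj b b') →
      (∀ a a', a ∉ B → a' ∉ B → a ≠ a' → G.Adj a a') → (∃ b a, b ∈ B ∧ a ∉ B ∧ G.Adj b a) →
      ∃ S : Finset V, Neck G S ∅ ∧ ∃ b a, Cross G S ∅ b a := by
    intro B hB1 hB2 hB3
    refine ⟨B, ⟨fun x hx => absurd hx (Finset.notMem_empty x), fun x hx => absurd hx (Finset.notMem_empty x), ?_,
      fun _ _ _ x hx => absurd hx (Finset.notMem_empty x)⟩, ?_⟩
    · intro b a b' a' h3 h4
      constructor
      · by_cases h : b = b'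
        · exact Or.inl h
        · exact Or.inr (hB1 b h3.1 b' h4.1 h)
      · by_cases h : a = a'
        · exact Or.inl h
        · exact Or.inr (hB2 a a' h3.2.1 h4.2.1 h)
    · obtain ⟨b, a, hb, ha, hba⟩ := hB3
      exact ⟨b, a, hb, ha, Finset.notMem_empty _, hba⟩
  by_cases hex : (∃ x, x ∈ A) ∧ ∃ y, y ∉ A
  · obtain ⟨⟨x, hx⟩, y, hy⟩ := hex
    apply main (Finset.univ.filter fun v => v ∈ A)
    · intro b hb b' hb' hne
      rw [Finset.mem_filter] at hb hb'
      exact h1 b hb.2 b' hb'.2 hne
    · intro a a' ha ha' hne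
      rw [Finset.mem_filter] at ha ha'
      exact h2 a (fun h => ha ⟨Finset.mem_univ _, h⟩) a'
        (fun h => ha' ⟨Finset.mem_univ _, h⟩) hne
    · obtain ⟨p⟩ := hconn.preconnected x y
      obtain ⟨d, _, hd1, hd2⟩ := p.exists_boundary_dart A hx hy
      refine ⟨d.fst, d.snd, ?_, ?_, d.adj⟩
      · rw [Finset.mem_filter]; exact ⟨Finset.mem_univ _, hd1⟩
      · rw [Finset.mem_filter]; exact fun h => hd2 h.2
  · have hcomp : ∀ x y, x ≠ y → G.Adj x y := by
      intro x y hne
      by_cases hx : x ∈ A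
      · have hy : y ∈ A := by
          by_contra hy
          exact hex ⟨⟨x, hx⟩, y, hy⟩
        exact h1 x hx y hy hne
      · have hy : y ∉ A := fun hy => hex ⟨⟨y, hy⟩, x, hx⟩
        exact h2 x hx y hy hne
    obtain ⟨x, y, hxy⟩ := exists_pair_ne V
    apply main {x}
    · intro b _ b' _ hne
      exact hcomp b b' hne
    · intro a a' _ _ hne
      exact hcomp a a' hne
    · refine ⟨x, y, Finset.mem_singleton_self _, ?_, hcomp x y hxy⟩
      rw [Finset.mem_singleton]; exact hxy.symm

/-- Let `S` and `K` be sets of vertices with the neck or the star property. If some edge joins `S`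
to a vertex outside `S` and `K`, then the deletion of some such edge lowers the mean size of a
broken-cycle-free spanning subgraph. In particular the conjecture holds for the four classes of
graphs in the second part. -/
theorem result (V : Type) [Fintype V] [DecidableEq V] (G : SimpleGraph V) [DecidableRel G.Adj]
    (ε : Finset (Sym2 V) → ℝ)
    (hε : ∀ E : Finset (Sym2 V), ε E =
        (∑ A ∈ E.powerset,
            ((Fintype.card V : ℝ) -
              (Nat.card (SimpleGraph.fromEdgeSet (A : Set (Sym2 V))).ConnectedComponent : ℝ)) *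
            (-1 : ℝ) ^ (A.card + Fintype.card V +
              Nat.card (SimpleGraph.fromEdgeSet (A : Set (Sym2 V))).ConnectedComponent)) /
        (∑ A ∈ E.powerset,
            (-1 : ℝ) ^ (A.card + Fintype.card V +
              Nat.card (SimpleGraph.fromEdgeSet (A : Set (Sym2 V))).ConnectedComponent))) :
    (∀ S K : Finset V, Neck G S K ∨ Star G S K → (∃ b a, Cross G S K b a) →
      ∃ b a, Cross G S K b a ∧ ε (G.edgeFinset.erase s(b, a)) < ε G.edgeFinset) ∧
    (CoBipartite G ∨ Cone G ∨ DominatedArcs G ∨ LongClawAT G →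
      ∃ e ∈ G.edgeFinset, ε (G.edgeFinset.erase e) < ε G.edgeFinset) := by
  have hstar : ∀ w a, Dominated G w a → Two G w →
      ∃ u, G.Adj w u ∧ ε (G.edgeFinset.erase s(w, u)) < ε G.edgeFinset := by
    intro w a hd hα
    obtain ⟨u, hwu, h⟩ := good_dominated hd.1 hd.2 hα
    exact ⟨u, hwu, lower hε hwu h⟩
  have hstar' : ∀ w a, Dominated G w a → Two G w →
      ∃ e ∈ G.edgeFinset, ε (G.edgeFinset.erase e) < ε G.edgeFinset := by
    intro w a hd hα
    obtain ⟨u, hwu, h⟩ := hstar w a hd hα
    exact ⟨s(w, u), by rw [SimpleGraph.mem_edgeFinset]; exact hwu, h⟩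
  have hneck : ∀ S : Finset V, Neck G S ∅ → (∃ b a, Cross G S ∅ b a) →
      ∃ e ∈ G.edgeFinset, ε (G.edgeFinset.erase e) < ε G.edgeFinset := by
    intro S h1 h2
    obtain ⟨b, a, hba, h⟩ := neck_good hε h1 h2
    exact ⟨s(b, a), by rw [SimpleGraph.mem_edgeFinset]; exact hba.2.2.2, h⟩
  refine ⟨?_, ?_⟩
  · rintro S K (h | ⟨rfl, w, a, rfl, hd, hα⟩) hne
    · exact neck_good hε h hne
    · obtain ⟨u, hwu, h⟩ := hstar w a hd hα
      refine ⟨w, u, ⟨Finset.mem_singleton_self _, ?_, Finset.notMem_empty _, hwu⟩, h⟩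
      rw [Finset.mem_singleton]
      exact hwu.ne'
  · rintro (h | ⟨u, w, huw, hu, hα⟩ | ⟨⟨N, hN, s, l, hG⟩, hd⟩ | h)
    · obtain ⟨S, h1, h2⟩ := neck_of_cob h
      exact hneck S h1 h2
    · exact hstar' w u ⟨(hu w huw.symm).symm, fun v _ hvu => hu v hvu⟩ hα
    · obtain ⟨w, a, h1, h2, h3⟩ := arc_dominated' hG hd
      exact hstar' w a ⟨h1, h2⟩ h3
    · obtain ⟨S, h1, h2⟩ := neck_of_long h
      exact hneck S h1 h2

end Pool.Agent.Results.MP_0933f2_co.LocalCriteria
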