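import Pool.Agent.BCF.Close

set_option autoImplicit false

/-!
# MP_0933f2_co, Q1: series parallel graphs and series parallel parts

Every 2-connected graph of treewidth at most two has an edge whose deletion lowers the mean size of
a broken-cycle-free spanning subgraph, and more generally such an edge can be found in every part
of treewidth two which is attached at two vertices `u`, `v`, when `uv` is an edge, or when the rest
of the graph satisfies `ε(rest) ≤ ε(rest + uv)`.
-/

namespace Pool.Agent.Results.MP_0933f2_co.SeriesParallel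

open Polynomial Pool.Agent.BCF

/-- The vertices of `C` can be eliminated in the order given by `f`, each one having at most two
later neighbours (in the graph `H` with the fill-in edges), and all neighbours of `C` are in `C` or
equal to `u` or `v`. -/
structure Elimination {V : Type} (G H : SimpleGraph V) (C : Finset V) (u v : V) (f : V → ℕ) :
    Prop where
  inj : Function.Injective f
  sub : ∀ x ∈ C, ∀ y, G.Adj x y → H.Adj x y
  nbr : ∀ x ∈ C, ∀ y, H.Adj x y → y ∈ C ∨ y = u ∨ y = v
  two : ∀ x ∈ C, {y | H.Adj x y ∧ (y ∈ C → f x < f y)}.ncard ≤ 2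
  clique : ∀ x ∈ C, ∀ a b, H.Adj x a → (a ∈ C → f x < f a) → H.Adj x b → (b ∈ C → f x < f b) →
    a ≠ b → H.Adj a b

theorem local_part (V : Type) [Fintype V] [DecidableEq V] (G : SimpleGraph V)
    [DecidableRel G.Adj]
    (hG : 3 ≤ Fintype.card V ∧ G.Connected ∧ ∀ v : V, (G.induce {w : V | w ≠ v}).Connected)
    (ε : Finset (Sym2 V) → ℝ)
    (hε : ∀ E : Finset (Sym2 V), ε E =
        (∑ A ∈ E.powerset,
            ((Fintype.card V : ℝ) -
              (Nat.card (SimpleGraph.fromEdgeSet (A : Set (Sym2 V))).ConnectedComponent : ℝ)) *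
            (-1 : ℝ) ^ (A.card + Fintype.card V +
              Nat.card (SimpleGraph.fromEdgeSet (A : Set (Sym2 V))).ConnectedComponent)) /
        (∑ A ∈ E.powerset,
            (-1 : ℝ) ^ (A.card + Fintype.card V +
              Nat.card (SimpleGraph.fromEdgeSet (A : Set (Sym2 V))).ConnectedComponent)))
    (u v : V) (C : Finset V) (H : SimpleGraph V) (f : V → ℕ) (huv : u ≠ v) (huC : u ∉ C)
    (hvC : v ∉ C) (hC : C.Nonempty) (hel : Elimination G H C u v f)
    (henv : G.Adj u v ∨ (∀ x, x ∈ C ∨ x = u ∨ x = v) ∨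
      ε (G.edgeFinset.filter fun e => ∀ x ∈ C, x ∉ e) ≤
        ε (insert s(u, v) (G.edgeFinset.filter fun e => ∀ x ∈ C, x ∉ e))) :
    ∃ e ∈ G.edgeFinset, (∃ x ∈ C, x ∈ e) ∧ ε (G.edgeFinset.erase e) < ε G.edgeFinset := by
  have hE : ∀ s ∈ G.edgeFinset, ¬ s.IsDiag := by
    intro s hs
    rw [SimpleGraph.mem_edgeFinset] at hs
    exact G.not_isDiag_of_mem_edgeSet hs
  have hF : ∀ s ∈ G.edgeFinset.filter (fun e => ∀ x ∈ C, x ∉ e), ¬ s.IsDiag :=
    fun s hs => hE s (Finset.mem_filter.mp hs).1
  have hF' : ∀ s ∈ insert s(u, v) (G.edgeFinset.filter (fun e => ∀ x ∈ C, x ∉ e)),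
      ¬ s.IsDiag := by
    intro s hs
    rw [Finset.mem_insert] at hs
    rcases hs with rfl | hs
    · simpa using huv
    · exact hF s hs
  have henv' : G.Adj u v ∨
      (derivative (Zp (G.edgeFinset.filter fun s => ∀ x ∈ C, x ∉ s))).eval (-1) /
          (Zp (G.edgeFinset.filter fun s => ∀ x ∈ C, x ∉ s)).eval (-1) ≤
        (derivative (Zp (insert s(u, v)
            (G.edgeFinset.filter fun s => ∀ x ∈ C, x ∉ s)))).eval (-1) /
          (Zp (insert s(u, v) (G.edgeFinset.filter fun s => ∀ x ∈ C, x ∉ s))).eval (-1) := by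
    by_cases hadj : G.Adj u v
    · exact Or.inl hadj
    right
    rcases henv with h | h | h
    · exact absurd h hadj
    · -- no edge outside
      have hempty : G.edgeFinset.filter (fun e => ∀ x ∈ C, x ∉ e) = ∅ := by
        rw [Finset.filter_eq_empty_iff]
        intro s hs hcon
        induction s using Sym2.ind with
        | _ a b =>
          rw [SimpleGraph.mem_edgeFinset, SimpleGraph.mem_edgeSet] at hs
          have ha : a = u ∨ a = v := by
            rcases h a with h1 | h1
            · exact absurd (Sym2.mem_mk_left a b) (hcon a h1)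
            · exact h1
          have hb : b = u ∨ b = v := by
            rcases h b with h1 | h1
            · exact absurd (Sym2.mem_mk_right a b) (hcon b h1)
            · exact h1
          rcases ha with rfl | rfl <;> rcases hb with rfl | rfl
          · exact hs.ne rfl
          · exact hadj hs
          · exact hadj hs.symm
          · exact hs.ne rfl
      rw [hempty] at hF hF' ⊢
      have p1 := Zp_pos hF
      have hn : s(u, v) ∉ (∅ : Finset (Sym2 V)) := Finset.notMem_empty _
      have hc := Zp_contract huv (Finset.mem_insert_self s(u, v) (∅ : Finset (Sym2 V))) hF'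
      rw [Finset.erase_insert hn, Finset.image_empty] at hc
      have c1 := congrArg (eval (-1)) hc
      have c2 := congrArg (fun P => (derivative P).eval (-1)) hc
      simp only [derivative_mul, derivative_sub, derivative_X, one_mul, eval_add, eval_mul,
        eval_sub, eval_X] at c1 c2
      set a := (Zp (∅ : Finset (Sym2 V))).eval (-1)
      set b := (Zp (insert s(u, v) (∅ : Finset (Sym2 V)))).eval (-1)
      set a' := (derivative (Zp (∅ : Finset (Sym2 V)))).eval (-1)
      set b' := (derivative (Zp (insert s(u, v) (∅ : Finset (Sym2 V))))).eval (-1)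
      have ha0 : a ≠ 0 := by
        intro h; rw [h, mul_zero] at p1; exact lt_irrefl _ p1
      have hb : b = 2 * a := by linarith
      have hb' : b' = 2 * a' + a := by linarith
      rw [hb, hb']
      have : (2 * a' + a) / (2 * a) = a' / a + 1 / 2 := by field_simp
      rw [this]
      linarith
    · rw [eps_eq hε hF, eps_eq hε hF'] at h
      linarith
  have h3 : ∀ x ∈ C, ∀ a b c, Later H C f x a → Later H C f x b → Later H C f x c →
      a = b ∨ a = c ∨ b = c := by
    intro x hx a b c ha hb hc
    by_contra hcon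
    push Not at hcon
    have h2 := hel.two x hx
    have h4 : ({a, b, c} : Set V) ⊆ {y | H.Adj x y ∧ (y ∈ C → f x < f y)} := by
      rintro y (rfl | rfl | rfl)
      · exact ha
      · exact hb
      · exact hc
    have h5 := Set.ncard_le_ncard h4 (Set.toFinite _)
    have h6 : ({a, b, c} : Set V).ncard = 3 :=
      Set.ncard_eq_three.mpr ⟨a, b, c, hcon.1, hcon.2.1, hcon.2.2, rfl⟩
    omega
  obtain ⟨e, he, hx, hbr⟩ := main_poly hel.inj huC hvC huv hC hel.sub hel.nbr h3
    (fun x hx a b ha hb hab => hel.clique x hx a b ha.1 ha.2 hb.1 hb.2 hab)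
    (fun z => cut_of_connected (hG.2.2 z)) henv'
  refine ⟨e, he, hx, ?_⟩
  have hEe : ∀ s ∈ G.edgeFinset.erase e, ¬ s.IsDiag :=
    fun s hs => hE s (Finset.mem_of_mem_erase hs)
  rw [eps_eq hε hE, eps_eq hε hEe]
  have := lower_of_br hE hbr
  linarith

/-- Part (A): every 2-connected graph `G` of treewidth at most two (a subgraph of a graph `H` with a
perfect elimination order `f` with at most two later neighbours) has an edge whose deletion lowers
`ε`.  Part (B): the same for an edge meeting `C`, if `C` is a part of treewidth two of a 2-connected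
graph `G` which is attached at `u` and `v` only, and `uv` is an edge, or `C` together with `u`, `v`
is everything, or `ε(F) ≤ ε(F + uv)` for the set `F` of the edges which do not meet `C`. -/
theorem result (V : Type) [Fintype V] [DecidableEq V] (G : SimpleGraph V) [DecidableRel G.Adj]
    (hG : 3 ≤ Fintype.card V ∧ G.Connected ∧ ∀ v : V, (G.induce {w : V | w ≠ v}).Connected)
    (ε : Finset (Sym2 V) → ℝ)
    (hε : ∀ E : Finset (Sym2 V), ε E =
        (∑ A ∈ E.powerset,
            ((Fintype.card V : ℝ) -
              (Nat.card (SimpleGraph.fromEdgeSet (A : Set (Sym2 V))).ConnectedComponent : ℝ)) *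
            (-1 : ℝ) ^ (A.card + Fintype.card V +
              Nat.card (SimpleGraph.fromEdgeSet (A : Set (Sym2 V))).ConnectedComponent)) /
        (∑ A ∈ E.powerset,
            (-1 : ℝ) ^ (A.card + Fintype.card V +
              Nat.card (SimpleGraph.fromEdgeSet (A : Set (Sym2 V))).ConnectedComponent))) :
    ((∃ (H : SimpleGraph V) (f : V → ℕ), G ≤ H ∧ Function.Injective f ∧
        (∀ x, {y | H.Adj x y ∧ f x < f y}.ncard ≤ 2) ∧
        (∀ x a b, H.Adj x a → f x < f a → H.Adj x b → f x < f b → a ≠ b → H.Adj a b)) →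
      ∃ e ∈ G.edgeFinset, ε (G.edgeFinset.erase e) < ε G.edgeFinset) ∧
    (∀ (u v : V) (C : Finset V) (H : SimpleGraph V) (f : V → ℕ), u ≠ v → u ∉ C → v ∉ C →
      C.Nonempty → Elimination G H C u v f →
      (G.Adj u v ∨ (∀ x, x ∈ C ∨ x = u ∨ x = v) ∨
        ε (G.edgeFinset.filter fun e => ∀ x ∈ C, x ∉ e) ≤
          ε (insert s(u, v) (G.edgeFinset.filter fun e => ∀ x ∈ C, x ∉ e))) →
      ∃ e ∈ G.edgeFinset, (∃ x ∈ C, x ∈ e) ∧ ε (G.edgeFinset.erase e) < ε G.edgeFinset) := by
  refine ⟨?_, fun u v C H f huv huC hvC hC hel henv =>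
    local_part V G hG ε hε u v C H f huv huC hvC hC hel henv⟩
  rintro ⟨H, f, hGH, hf, htwo, hcl⟩
  -- the two last vertices
  have hcard : 3 ≤ (Finset.univ : Finset V).card := by
    rw [Finset.card_univ]; exact hG.1
  have hne : (Finset.univ : Finset V).Nonempty := by
    rw [← Finset.card_pos]; omega
  obtain ⟨u, _, hu⟩ := Finset.exists_max_image Finset.univ f hne
  have hne2 : (Finset.univ.erase u : Finset V).Nonempty := by
    rw [← Finset.card_pos, Finset.card_erase_of_mem (Finset.mem_univ _)]; omega
  obtain ⟨v, hv, hv2⟩ := Finset.exists_max_image (Finset.univ.erase u) f hne2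
  have hvu : v ≠ u := (Finset.mem_erase.mp hv).1
  set C : Finset V := (Finset.univ.erase u).erase v with hCdef
  have hmem : ∀ x, x ∈ C ↔ x ≠ v ∧ x ≠ u := by
    intro x
    simp [hCdef]
  have hCne : C.Nonempty := by
    rw [← Finset.card_pos, hCdef, Finset.card_erase_of_mem hv,
      Finset.card_erase_of_mem (Finset.mem_univ _)]
    omega
  have hlu : ∀ x ∈ C, f x < f u := by
    intro x hx
    refine lt_of_le_of_ne (hu x (Finset.mem_univ _)) fun h => ?_
    exact ((hmem x).mp hx).2 (hf h)
  have hlv : ∀ x ∈ C, f x < f v := by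
    intro x hx
    refine lt_of_le_of_ne (hv2 x (Finset.mem_erase.mpr ⟨((hmem x).mp hx).2, Finset.mem_univ _⟩))
      fun h => ?_
    exact ((hmem x).mp hx).1 (hf h)
  have hall : ∀ x, x ∈ C ∨ x = u ∨ x = v := by
    intro x
    rw [hmem]
    tauto
  have hlater : ∀ x ∈ C, ∀ y, (y ∈ C → f x < f y) → f x < f y := by
    intro x hx y hy
    rcases hall y with h | rfl | rfl
    · exact hy h
    · exact hlu x hx
    · exact hlv x hx
  obtain ⟨e, he, _, hlt⟩ := local_part V G hG ε hε u v C H f hvu.symm
    (fun h => ((hmem u).mp h).2 rfl) (fun h => ((hmem v).mp h).1 rfl) hCne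
    ⟨hf, fun x _ y h => hGH h, fun x _ y _ => hall y, fun x hx => by
      refine le_trans (Set.ncard_le_ncard ?_ (Set.toFinite _)) (htwo x)
      rintro y ⟨h1, h2⟩
      exact ⟨h1, hlater x hx y h2⟩,
      fun x hx a b h1 h2 h3 h4 hab =>
        hcl x a b h1 (hlater x hx a h2) h3 (hlater x hx b h4) hab⟩ (Or.inr (Or.inl hall))
  exact ⟨e, he, hlt⟩

end Pool.Agent.Results.MP_0933f2_co.SeriesParallel
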