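import Pool.Agent.SCP.Fin

set_option autoImplicit false

/-!
# MP_0933f2_co, Q1: parts with small degrees attached at a clique

Let `C` be a set of vertices of a finite graph `G` whose outer neighbours are pairwise adjacent, and
let `U` be a set of `m` vertices outside `C` which are adjacent to all vertices of `C`. If all
vertices of `C` have degree at most `2 m + 3`, then the deletion of any edge with one end in `C`
and no end in `U` lowers the mean size of a broken-cycle-free spanning subgraph. In particular this
holds for all edges of a graph of maximum degree at most three, and there is such an edge in every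
2-connected graph in which the vertices of degree at least four are pairwise adjacent.
-/

namespace Pool.Agent.Results.MP_0933f2_co.SubcubicPart

open Pool.Agent.BCF Pool.Agent.SCP

/-- The vertices outside `C` which have a neighbour in `C` are pairwise adjacent. -/
def CliqueAttached {V : Type} (G : SimpleGraph V) (C : Finset V) : Prop :=
  ∀ a b, a ∉ C → b ∉ C → a ≠ b → (∃ c ∈ C, G.Adj c a) → (∃ c ∈ C, G.Adj c b) → G.Adj a b

/-- The vertices of `U` are not in `C` and adjacent to all vertices of `C`. -/
def Dominating {V : Type} (G : SimpleGraph V) (C U : Finset V) : Prop :=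
  ∀ k ∈ U, k ∉ C ∧ ∀ c ∈ C, G.Adj c k

/-- The vertex `w` has degree at most `2 |U| + 3`, or for every neighbour `u` of `w` outside `U`
the sum of `(|S| - 1) / (|U| + 1) ^ |S|` over all independent sets `S` with at least two elements
of neighbours of `w` different from `u` and not in `U` is at most one. -/
def Light {V : Type} [Fintype V] [DecidableEq V] (G : SimpleGraph V) [DecidableRel G.Adj]
    (U : Finset V) (w : V) : Prop :=
  G.degree w ≤ 2 * U.card + 3 ∨ ∀ u, G.Adj w u → u ∉ U →
    ∑ S ∈ ((G.neighborFinset w \ U).erase u).powerset.filter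
        (fun S => 2 ≤ S.card ∧ ∀ a ∈ S, ∀ b ∈ S, ¬ G.Adj a b),
      ((S.card : ℝ) - 1) / ((U.card : ℝ) + 1) ^ S.card ≤ 1

theorem nb_univ {V : Type} [Fintype V] [DecidableEq V] {G : SimpleGraph V}
    [DecidableRel G.Adj] (w : V) : nb G Finset.univ w = G.neighborFinset w := by
  ext a
  unfold nb
  rw [Finset.mem_filter, SimpleGraph.mem_neighborFinset]
  simp

theorem cfg_of {V : Type} [Fintype V] [DecidableEq V] {G : SimpleGraph V}
    [DecidableRel G.Adj] {C U : Finset V} (h1 : CliqueAttached G C) (h2 : Dominating G C U)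
    (h3 : ∀ w ∈ C, Light G U w) (hne : C.Nonempty) :
    Cfg G C (Finset.univ.filter fun a => a ∉ C ∧ ∃ c ∈ C, G.Adj c a) U := by
  refine ⟨?_, ?_, ?_, fun c hc k hk => (h2 k hk).2 c hc, ?_, ?_⟩
  · intro c hc v hcv
    by_cases hv : v ∈ C
    · exact Or.inl hv
    · right
      rw [Finset.mem_filter]
      exact ⟨Finset.mem_univ _, hv, c, hc, hcv⟩
  · intro a ha b hb hab
    rw [Finset.mem_filter] at ha hb
    exact h1 a b ha.2.1 hb.2.1 hab ha.2.2 hb.2.2
  · intro k hk
    rw [Finset.mem_filter]
    obtain ⟨c, hc⟩ := hne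
    exact ⟨Finset.mem_univ _, (h2 k hk).1, c, hc, (h2 k hk).2 c hc⟩
  · intro c hc hcK
    rw [Finset.mem_filter] at hcK
    exact hcK.2.1 hc
  · intro c hc u hcu huU
    rw [nb_univ]
    rcases h3 c hc with h | h
    · refine wt_card (by positivity) ?_
      have hUs : U ⊆ G.neighborFinset c := by
        intro k hk
        rw [SimpleGraph.mem_neighborFinset]
        exact (h2 k hk).2 c hc
      have hu : u ∈ G.neighborFinset c \ U := by
        rw [Finset.mem_sdiff, SimpleGraph.mem_neighborFinset]
        exact ⟨hcu, huU⟩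
      have h4 : ((G.neighborFinset c \ U).erase u).card ≤ U.card + 2 := by
        rw [Finset.card_erase_of_mem hu, Finset.card_sdiff_of_subset hUs,
          SimpleGraph.card_neighborFinset_eq_degree]
        omega
      have h5 : (((G.neighborFinset c \ U).erase u).card : ℝ) ≤ U.card + 2 := by
        exact_mod_cast h4
      linarith
    · exact h u hcu huU

/-- Let `C` be a set of vertices of a finite graph `G` such that the vertices outside `C` with a
neighbour in `C` are pairwise adjacent, let `U` be a set of vertices outside `C` adjacent to all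
vertices of `C`, and let all vertices of `C` be light, for example of degree at most `2 |U| + 3`.
Then `ε (G - wu) < ε G` for every edge `wu` with `w` in `C` and `u` not in `U`, and if there is an
edge at `C`, then there is an edge `e` at `C` with `ε (G - e) < ε G`. In particular there is an
edge `e` with `ε (G - e) < ε G` in every 2-connected graph `G` in which the vertices of degree at
least four are pairwise adjacent. -/
theorem result (V : Type) [Fintype V] [DecidableEq V] (G : SimpleGraph V) [DecidableRel G.Adj]
    (ε : Finset (Sym2 V) → ℝ)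
    (hε : ∀ E : Finset (Sym2 V), ε E =
        (∑ A ∈ E.powerset,
            ((Fintype.card V : ℝ) -
              (Nat.card (SimpleGraph.fromEdgeSet (A : Set (Sym2 V))).ConnectedComponent : ℝ)) *
            (-1 : ℝ) ^ (A.card + Fintype.card V +
              Nat.card (SimpleGraph.fromEdgeSet (A : Set (Sym2 V))).ConnectedComponent)) /
        (∑ A ∈ E.powerset,
            (-1 : ℝ) ^ (A.card + Fintype.card V +
              Nat.card (SimpleGraph.fromEdgeSet (A : Set (Sym2 V))).ConnectedComponent))) :
    (∀ C U : Finset V, CliqueAttached G C → Dominating G C U → (∀ w ∈ C, Light G U w) →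
      (∀ w u, w ∈ C → u ∉ U → G.Adj w u →
        ε (G.edgeFinset.erase s(w, u)) < ε G.edgeFinset) ∧
      ((∃ w ∈ C, ∃ u, G.Adj w u) →
        ∃ e ∈ G.edgeFinset, (∃ w ∈ C, w ∈ e) ∧ ε (G.edgeFinset.erase e) < ε G.edgeFinset)) ∧
    ((3 ≤ Fintype.card V ∧ G.Connected ∧ ∀ v : V, (G.induce {w : V | w ≠ v}).Connected) →
      (∀ a b, a ≠ b → 4 ≤ G.degree a → 4 ≤ G.degree b → G.Adj a b) →
      ∃ e ∈ G.edgeFinset, ε (G.edgeFinset.erase e) < ε G.edgeFinset) := by
  have main1 : ∀ C U : Finset V, CliqueAttached G C → Dominating G C U →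
      (∀ w ∈ C, Light G U w) →
      (∀ w u, w ∈ C → u ∉ U → G.Adj w u →
        ε (G.edgeFinset.erase s(w, u)) < ε G.edgeFinset) ∧
      ((∃ w ∈ C, ∃ u, G.Adj w u) →
        ∃ e ∈ G.edgeFinset, (∃ w ∈ C, w ∈ e) ∧
          ε (G.edgeFinset.erase e) < ε G.edgeFinset) := by
    intro C U h1 h2 h3
    have hedge : ∀ w u, w ∈ C → u ∉ U → G.Adj w u →
        ε (G.edgeFinset.erase s(w, u)) < ε G.edgeFinset := by
      intro w u hw hu hwu
      exact lower hε hwu (good_edge (cfg_of h1 h2 h3 ⟨w, hw⟩) hw hu hwu)
    refine ⟨hedge, ?_⟩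
    rintro ⟨w, hw, u, hwu⟩
    by_cases hex : ∃ c ∈ C, ∃ v, v ∉ U ∧ G.Adj c v
    · obtain ⟨c, hc, v, hv, hcv⟩ := hex
      exact ⟨s(c, v), by rw [SimpleGraph.mem_edgeFinset]; exact hcv, ⟨c, hc, by simp⟩,
        hedge c v hc hv hcv⟩
    · push Not at hex
      refine ⟨s(w, u), by rw [SimpleGraph.mem_edgeFinset]; exact hwu, ⟨w, hw, by simp⟩,
        lower hε hwu (good_simplicial hwu ?_)⟩
      intro a b ha hb hab
      have haU : a ∈ U := by
        by_contra h
        exact hex w hw a h ha
      have hbU : b ∈ U := by
        by_contra h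
        exact hex w hw b h hb
      exact h1 a b (h2 a haU).1 (h2 b hbU).1 hab ⟨w, hw, ha⟩ ⟨w, hw, hb⟩
  refine ⟨main1, ?_⟩
  rintro ⟨hcard, hconn, _⟩ hdeg
  have hnt : Nontrivial V := Fintype.one_lt_card_iff_nontrivial.mp (by omega)
  have hpos : ∀ v, ∃ u, G.Adj v u := by
    intro v
    exact hconn.preconnected.exists_adj_of_nontrivial v
  by_cases hC : ∃ v, G.degree v ≤ 3
  · obtain ⟨v, hv⟩ := hC
    obtain ⟨u, hu⟩ := hpos v
    obtain ⟨e, he, _, hlt⟩ := (main1 (Finset.univ.filter fun v => G.degree v ≤ 3) ∅
      (by
        intro a b ha hb hab _ _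
        rw [Finset.mem_filter] at ha hb
        push Not at ha hb
        exact hdeg a b hab (ha (Finset.mem_univ _)) (hb (Finset.mem_univ _)))
      (by intro k hk; exact absurd hk (Finset.notMem_empty k))
      (by
        intro w hw
        left
        rw [Finset.mem_filter] at hw
        have := hw.2
        omega)).2 ⟨v, by rw [Finset.mem_filter]; exact ⟨Finset.mem_univ _, hv⟩, u, hu⟩
    exact ⟨e, he, hlt⟩
  · push Not at hC
    obtain ⟨v⟩ : Nonempty V := hnt.to_nonempty
    obtain ⟨u, hu⟩ := hpos v
    have hcomplete : ∀ a b, a ≠ b → G.Adj a b := fun a b hab =>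
      hdeg a b hab (hC a) (hC b)
    obtain ⟨e, he, _, hlt⟩ := (main1 {v} (Finset.univ.erase v)
      (fun a b _ _ hab _ _ => hcomplete a b hab)
      (by
        intro k hk
        rw [Finset.mem_erase] at hk
        refine ⟨by simpa using hk.1, ?_⟩
        intro c hc
        rw [Finset.mem_singleton] at hc
        subst hc
        exact hcomplete _ _ (Ne.symm hk.1))
      (by
        intro w hw
        rw [Finset.mem_singleton] at hw
        subst hw
        left
        have h1 := G.degree_lt_card_verts w
        rw [Finset.card_erase_of_mem (Finset.mem_univ _), Finset.card_univ]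
        omega)).2 ⟨v, by simp, u, hu⟩
    exact ⟨e, he, hlt⟩

end Pool.Agent.Results.MP_0933f2_co.SubcubicPart
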